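import Pool.Agent.H93.GSM.M

/-!
# MP_7644f1_al: finitely presented Noetherian groups satisfy the reverse Golod-Shafarevich inequality

Let `G` have a presentation with `n` generators and `m` relators, and assume that `G` is Noetherian, or only that
every elementary abelian `p`-section `K / L` of `G` is finite (`L.relIndex K` is the index of `L` in `K`, `0` if it
is infinite).  Then every subgroup `H` of finite index with `d = dim Hom(H, F_p) ≥ 2` satisfies
`(d - 2)^2 ≤ 4 [G : H] (m - n + 1)`.
-/

set_option autoImplicit false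

namespace Pool.Agent.Results.MP_7644f1_al.ReverseGolodShafarevich

theorem result (p : ℕ) [Fact p.Prime] (G : Type) [Group G] (n m : ℕ)
    (f : FreeGroup (Fin n) →* G) (rel : Fin m → FreeGroup (Fin n))
    (hf : Function.Surjective f) (hk : f.ker = Subgroup.normalClosure (Set.range rel))
    (hG : WellFoundedGT (Subgroup G) ∨
      ∀ K L : Subgroup G, L ≤ K → (∀ x ∈ K, x ^ p ∈ L) →
        (∀ x ∈ K, ∀ y ∈ K, x * y * x⁻¹ * y⁻¹ ∈ L) → L.relIndex K ≠ 0)
    (H : Subgroup G) (hH : H.FiniteIndex) (d : ℕ)
    (hd : d = Module.finrank (ZMod p) (Additive H →+ ZMod p)) (h2 : 2 ≤ d) :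
    ((d : ℤ) - 2) ^ 2 ≤ 4 * (H.index : ℤ) * ((m : ℤ) - (n : ℤ) + 1) := by
  have hG' : Pool.Agent.H93.GS.FiniteSections p G := by
    rcases hG with h | h
    · exact Pool.Agent.H93.GS.sec_noeth p h
    · exact h
  subst hd
  exact Pool.Agent.H93.GS.main p f hf rel hk hG' H h2

end Pool.Agent.Results.MP_7644f1_al.ReverseGolodShafarevich
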